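import Pool.Agent.H383.SB.V3
import Pool.Graph.R_pool_sql_team_seeded_707910d6.T2H54.SB.AsmC
import Pool.Graph.R_pool_sql_team_seeded_707910d6.T2H54.SB.A4U
import Pool.Graph.R_pool_sql_team_seeded_707910d6.T2H54.SB.ZMU
import Pool.Graph.R_pool_sql_team_seeded_707910d6.T2H54.SB.SSU
import Pool.Graph.R_pool_sql_team_seeded_707910d6.T2H54.SB.NSU
import Pool.Graph.R_pool_sql_team_seeded_707910d6.T2H54.SB.Tr
import Pool.Graph.R_seed8.TH757.GS.CONT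
import Pool.Graph.R_seed8.TH509.GS.DIAG
import Pool.Graph.R_seed8.TH612.GS.Inv
import Pool.Graph.R_seed8.TH811.GS.One
import Pool.Graph.R_seed8.TH928.GS.MV

/-!
Project SB: the main theorem with the exponent `1/3`.
-/

set_option autoImplicit false

namespace Pool.Agent.H383.SB

open Complex Filter Topology MeasureTheory Set
open Pool.Agent.TH612.CF Pool.Agent.TH612.GS
open Pool.Agent.T2H54.SB

theorem main (k : ℕ) (hk : 1 ≤ k) {c : ℝ} (hc : 0 < c) :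
    ∃ η δ : ℝ, 0 < η ∧ 0 < δ ∧ ∃ T₀ : ℝ, ∀ (T H L A : ℝ) (U : Fin k ⊕ Fin k → ℝ), T₀ ≤ T →
      T ^ (1 / 3 - η) ≤ H → H ≤ T → L ≤ T → T ^ (1 + c) ≤ L * H →
      (∀ i, 0 ≤ A + U i ∧ A + U i + H ≤ T) →
      volume {γ : Fin k ⊕ Fin k → ℝ | (∀ i, U i ≤ γ i ∧ γ i ≤ U i + H) ∧
        ∃ S : ℝ, 0 ≤ S ∧ S ≤ L ∧ L * T ^ (-δ) < ‖∫ t in A..(A + S), (Zg γ t -
          ((Nat.factorial k : ℂ) ^ 2)⁻¹ * Qs t (fun i => (γ i : ℂ)))‖} ≤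
        ENNReal.ofReal (H ^ (2 * k) * T ^ (-δ)) := by
  obtain ⟨η, δ, hη, hδ, T₀, h⟩ := mainL (κ := 1 / 3) le_rfl (by norm_num) t_V3
    Pool.Agent.T2H54.SB.SSU.pSSU
    (Pool.Agent.T2H54.SB.A4U.pA4U Pool.Agent.TH757.GS.t_CONT)
    (Pool.Agent.T2H54.SB.ZMU.pZMU pMVW) Pool.Agent.T2H54.SB.NSU.pNSU
    (Pool.Agent.TH811.GS.t_ONE Pool.Agent.TH928.GS.t_MV) Pool.Agent.TH509.GS.t_DIAG
    t_INV k hk hc
  refine ⟨η, δ, hη, hδ, T₀, fun T H L A U hT hH hHT hLT hLH hU => ?_⟩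
  rw [vol_box]
  exact h T H L (cA k A + U) hT hH hHT hLT hLH hU

end Pool.Agent.H383.SB
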