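import Pool.Agent.H383.SB.V3
import Pool.Graph.R_pool_sql_team_seeded_707910d6.T2H54.SB.Tr
import Pool.Graph.R_pool_sql_team_seeded_707910d6.T2H54.TP.AsmE
import Pool.Graph.R_pool_sql_team_seeded_707910d6.T2H54.TP.QD
import Pool.Graph.R_pool_sql_team_seeded_707910d6.T2H54.TP.TN
import Pool.Graph.R_pool_sql_team_seeded_707910d6.T2H54.TP.TAB
import Pool.Graph.R_pool_sql_team_seeded_707910d6.T2H54.TP.TSM
import Pool.Graph.R_pool_sql_team_seeded_707910d6.T2H54.TP.WD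
import Pool.Graph.R_pool_sql_team_seeded_707910d6.T2H54.TP.AFD
import Pool.Graph.R_pool_sql_team_seeded_707910d6.T2H54.TP.AFA
import Pool.Graph.R_pool_sql_team_seeded_707910d6.T2H54.TP.AFB
import Pool.Graph.R_pool_sql_team_seeded_707910d6.T2H54.TP.CHD
import Pool.Graph.R_pool_sql_team_seeded_707910d6.T2H54.TP.SPC
import Pool.Graph.R_pool_sql_team_seeded_707910d6.T2H54.TP.DG
import Pool.Graph.R_pool_sql_team_seeded_707910d6.T2H54.TP.BV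
import Pool.Graph.R_pool_sql_team_seeded_707910d6.T2H54.TP.SSR
import Pool.Graph.R_pool_sql_team_seeded_707910d6.T2H54.TP.LCM
import Pool.Graph.R_pool_sql_team_seeded_707910d6.T2H54.TP.A4R
import Pool.Graph.R_pool_sql_team_seeded_707910d6.T2H54.TP.CTR
import Pool.Graph.R_pool_sql_team_seeded_707910d6.T2H54.TP.GLR
import Pool.Graph.R_pool_sql_team_seeded_707910d6.T2H54.TP.ZMR
import Pool.Graph.R_pool_sql_team_seeded_707910d6.T2H54.TP.NSF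
import Pool.Graph.R_pool_sql_team_seeded_707910d6.T2H54.TP.SWF
import Pool.Graph.R_pool_sql_team_seeded_707910d6.T2H54.TP.Q4
import Pool.Graph.R_seed8.TH811.GS.One
import Pool.Graph.R_seed8.TH928.GS.MV

/-!
Project TP: the main theorem.
-/

set_option autoImplicit false

namespace Pool.Agent.H383.SB

open Complex Filter Topology MeasureTheory Set
open Pool.Agent.TH612.CF Pool.Agent.TH612.GS
open Pool.Agent.T2H54.SB Pool.Agent.T2H54.TP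

theorem tp_TN : Pool.Agent.T2H54.TP.S_TN :=
  t_TN (t_TAB (t_TSM t_WD (t_AFD (t_AFA t_CHD) (t_AFB t_WD)) t_SPC (t_DG t_WD) (t_BV t_WD)))

theorem vol_boxF {n : ℕ} {a b H T lam : ℝ} (U : Fin n ⊕ Fin n → ℝ) :
    volume {θ : Fin n ⊕ Fin n → ℝ | (∀ i, U i ≤ θ i ∧ θ i ≤ U i + H) ∧
      ∃ S : ℝ, 0 ≤ S ∧ S ≤ T ∧ lam < ‖DD S (gc a b θ)‖} =
    mP (Fin n ⊕ Fin n) H (BadF a b H T lam U) := by
  rw [← vol_cube (T := H) (E := BadF a b H T lam U) fun γ hγ => hγ.1]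
  rw [← measure_preimage_add volume (-U) (BadF a b H T lam U)]
  congr 1
  ext γ
  simp only [BadF, mem_ofPred_eq, mem_preimage]
  have e : U + (-U + γ) = γ := by
    funext i
    simp only [Pi.add_apply, Pi.neg_apply]
    ring
  rw [e]
  have e2 : (∀ i, U i ≤ γ i ∧ γ i ≤ U i + H) ↔ ∀ i, 0 ≤ (-U + γ) i ∧ (-U + γ) i ≤ H := by
    refine forall_congr' fun i => ?_
    simp only [Pi.add_apply, Pi.neg_apply]
    constructor
    · rintro ⟨h1, h2⟩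
      exact ⟨by linarith, by linarith⟩
    · rintro ⟨h1, h2⟩
      exact ⟨by linarith, by linarith⟩
  rw [e2]

theorem mainTP (n : ℕ) (hn : 1 ≤ n) :
    ∃ η δ : ℝ, 0 < η ∧ 0 < δ ∧ ∀ a b : ℝ, a ≠ b → ∃ T₀ : ℝ, ∀ (T H : ℝ) (U : Fin n ⊕ Fin n → ℝ),
      T₀ ≤ T → T ^ (1 / 3 - η) ≤ H → H ≤ T → (∀ i, 0 ≤ U i ∧ U i + H ≤ T) →
      volume {θ : Fin n ⊕ Fin n → ℝ | (∀ i, U i ≤ θ i ∧ θ i ≤ U i + H) ∧
        ∃ S : ℝ, 0 ≤ S ∧ S ≤ T ∧ T * T ^ (-δ) < ‖DD S (gc a b θ)‖} ≤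
        ENNReal.ofReal (H ^ (2 * n) * T ^ (-δ)) := by
  obtain ⟨η, δ, hη, hδ, h⟩ := mainF t_V3 t_QD tp_TN (t_SSR t_LCM) (t_A4R t_CTR t_GLR)
    t_ZMR t_NSF t_SWF t_Q4 (Pool.Agent.TH811.GS.t_ONE Pool.Agent.TH928.GS.t_MV) n hn
  refine ⟨η, δ, hη, hδ, fun a b hab => ?_⟩
  obtain ⟨T₀, h⟩ := h a b hab
  refine ⟨T₀, fun T H U hT hH hHT hU => ?_⟩
  rw [vol_boxF]
  exact h T H U hT hH hHT hU

end Pool.Agent.H383.SB
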