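import Pool.Graph.R_pool_sql_team_seeded_707910d6.T2H57.VT.F
import Pool.Graph.R_pool_sql_team_seeded_707910d6.T2H54.SB.Stm
import Pool.Graph.R_seed8.TH889.GS.OP

/-!
Project SB: the mean square of zeta over short intervals with the exponent `1/3`.
-/

set_option autoImplicit false

namespace Pool.Agent.H383.SB

open Complex Filter Topology MeasureTheory Set
open Pool.Agent.TH612.GS (z)
open Pool.Agent.Y766
open Pool.Agent.T2H54.SB
open Pool.Agent.TH889.GS (cont_z)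

lemma hl_z (u : ℝ) : riemannZeta (hl u) = z u := by
  unfold hl z
  congr 1
  push_cast
  ring

lemma gs_cont2 (N k : ℕ) (c : ℝ) (hc : 0 < c) (d : ℝ) :
    Continuous fun p : ℝ × ℝ => gs N (k + 1) c (hl p.1) (p.2 + d) := by
  unfold gs
  refine continuous_finsetSum _ fun m hm => ?_
  have hm1 : 1 ≤ m := (Finset.mem_Icc.1 hm).1
  have h0 : (m : ℂ) ≠ 0 := by exact_mod_cast (by omega : m ≠ 0)
  refine Continuous.mul (Complex.continuous_ofReal.comp ?_) ?_
  · exact (Pool.Agent.H448R2.GC.cu_cont k c hc).comp (by fun_prop)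
  · refine Continuous.const_cpow ?_ (Or.inl h0)
    unfold hl
    fun_prop

lemma gs_cont1 (N k : ℕ) (c : ℝ) (D : ℝ) :
    Continuous fun t : ℝ => gs N k c (hl t) D := by
  unfold gs
  refine continuous_finsetSum _ fun m hm => ?_
  have hm1 : 1 ≤ m := (Finset.mem_Icc.1 hm).1
  have h0 : (m : ℂ) ≠ 0 := by exact_mod_cast (by omega : m ≠ 0)
  refine Continuous.mul continuous_const ?_
  refine Continuous.const_cpow ?_ (Or.inl h0)
  unfold hl
  fun_prop

lemma dbl {J : ℝ → ℝ → ℝ} (hJ : Continuous (Function.uncurry J)) {a b B : ℝ}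
    (h : ∀ u, ∫ t in a..b, J t u ≤ 2 * B) : ∫ t in a..b, ∫ u in (-3:ℝ)..3, J t u ≤ 12 * B := by
  rw [intervalIntegral_intervalIntegral_swap
      ((hJ.continuousOn.integrableOn_compact
        ((isCompact_uIcc (a := a) (b := b)).prod (isCompact_uIcc (a := (-3:ℝ)) (b := 3)))).mono_set
        (Set.prod_mono uIoc_subset_uIcc uIoc_subset_uIcc))]
  have hcJ' : Continuous (Function.uncurry fun (u t : ℝ) => J t u) := hJ.comp continuous_swap
  have hcu : Continuous fun u : ℝ => ∫ t in a..b, J t u :=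
    intervalIntegral.continuous_parametric_intervalIntegral_of_continuous' hcJ' a b
  calc ∫ u in (-3:ℝ)..3, ∫ t in a..b, J t u ≤ ∫ _u in (-3:ℝ)..3, 2 * B :=
        intervalIntegral.integral_mono_on (by norm_num) (hcu.intervalIntegrable _ _)
          intervalIntegrable_const fun u _ => h u
    _ = 12 * B := by
        rw [intervalIntegral.integral_const, smul_eq_mul]; ring

/-- windows of length between `a^(1/3)` and `a` -/
theorem win : ∃ K T₁ : ℝ, 0 < K ∧ 3 ≤ T₁ ∧ ∀ a L : ℝ, T₁ ≤ a → 0 < L → a ≤ L ^ 3 → L ≤ a →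
    ∫ u in a..(a + L), ‖z u‖ ^ 2 ≤ K * L * Real.log a ^ 4 := by
  obtain ⟨k, C, T₀, hC, hT₀, H⟩ := afe_sq (η := 1 / 100) (by norm_num) le_rfl
  refine ⟨C * (1 + 14 * (150000 * 16)), max T₀ (27000 ^ 10), by positivity,
    le_max_of_le_right (by norm_num), fun a L ha hL haL hLa => ?_⟩
  have haT : T₀ ≤ a := (le_max_left _ _).trans ha
  have ha2 : (27000 : ℝ) ^ 10 ≤ a := (le_max_right _ _).trans ha
  have ha0 : 0 < a := lt_of_lt_of_le (by norm_num) ha2
  have ha1 : 1 ≤ a := le_trans (by norm_num) ha2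
  obtain ⟨c, D1, D2, N, hc, hN, hz⟩ := H a haT
  have hlog1 : 1 ≤ Real.log a := by
    rw [Real.le_log_iff_exp_le ha0]
    exact Real.exp_one_lt_d9.le.trans (le_trans (by norm_num) ha2)
  -- the size of `a ^ (1/10)`
  have hten : (27000 : ℝ) ≤ a ^ (1 / 10 : ℝ) := by
    have h1 : ((27000 : ℝ) ^ 10) ^ (1 / 10 : ℝ) ≤ a ^ (1 / 10 : ℝ) :=
      Real.rpow_le_rpow (by positivity) ha2 (by norm_num)
    have h2 : ((27000 : ℝ) ^ 10) ^ (1 / 10 : ℝ) = 27000 := by
      rw [← Real.rpow_natCast, ← Real.rpow_mul (by norm_num)]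
      norm_num
    rwa [h2] at h1
  have hL2 : a ^ (2 / 3 : ℝ) ≤ L ^ 2 := by
    have h1 : a ^ (2 / 3 : ℝ) ≤ (L ^ 3) ^ (2 / 3 : ℝ) :=
      Real.rpow_le_rpow ha0.le haL (by norm_num)
    have h2 : (L ^ 3) ^ (2 / 3 : ℝ) = L ^ 2 := by
      rw [← Real.rpow_natCast, ← Real.rpow_mul hL.le, ← Real.rpow_natCast]
      norm_num
    rwa [h2] at h1
  have hN3 : (N : ℝ) ^ 3 ≤ a * L ^ 2 := by
    have h1 : (N : ℝ) ^ 3 ≤ (30 * a ^ (1 / 2 + 2 * (1 / 100) : ℝ)) ^ 3 :=
      pow_le_pow_left₀ (Nat.cast_nonneg _) hN 3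
    have h2 : (30 * a ^ (1 / 2 + 2 * (1 / 100) : ℝ)) ^ 3 = 27000 * a ^ (39 / 25 : ℝ) := by
      rw [mul_pow, ← Real.rpow_natCast (a ^ (1 / 2 + 2 * (1 / 100) : ℝ)) 3, ← Real.rpow_mul ha0.le]
      have e5 : (1 / 2 + 2 * (1 / 100) : ℝ) * ((3 : ℕ) : ℝ) = 39 / 25 := by norm_num
      rw [e5]
      norm_num
    have h3 : 27000 * a ^ (39 / 25 : ℝ) ≤ a ^ (1 / 10 : ℝ) * a ^ (39 / 25 : ℝ) := by gcongr
    have h4 : a ^ (1 / 10 : ℝ) * a ^ (39 / 25 : ℝ) ≤ a * a ^ (2 / 3 : ℝ) := by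
      rw [← Real.rpow_add ha0]
      have h5 : a * a ^ (2 / 3 : ℝ) = a ^ (1 + 2 / 3 : ℝ) := by
        rw [Real.rpow_add ha0, Real.rpow_one]
      rw [h5]
      exact Real.rpow_le_rpow_of_exponent_le ha1 (by norm_num)
    calc (N : ℝ) ^ 3 ≤ _ := h1
      _ = _ := h2
      _ ≤ _ := h3
      _ ≤ _ := h4
      _ ≤ a * L ^ 2 := by gcongr
  have hNa : (N : ℝ) ≤ a := by
    refine hN.trans ?_
    have h1 : (30 : ℝ) ≤ a ^ (1 / 10 : ℝ) := le_trans (by norm_num) hten
    calc 30 * a ^ (1 / 2 + 2 * (1 / 100) : ℝ) ≤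
        a ^ (1 / 10 : ℝ) * a ^ (1 / 2 + 2 * (1 / 100) : ℝ) := by gcongr
      _ = a ^ (1 / 10 + (1 / 2 + 2 * (1 / 100)) : ℝ) := (Real.rpow_add ha0 _ _).symm
      _ ≤ a ^ (1 : ℝ) := Real.rpow_le_rpow_of_exponent_le ha1 (by norm_num)
      _ = a := Real.rpow_one a
  have hlogN : Real.log N ≤ Real.log a := by
    rcases Nat.eq_zero_or_pos N with h0 | h0
    · rw [h0, Nat.cast_zero, Real.log_zero]; linarith
    · exact Real.log_le_log (by exact_mod_cast h0) hNa
  have hlogN0 : 0 ≤ Real.log N := Real.log_natCast_nonneg N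
  have hB : 150000 * L * (1 + Real.log N) ^ 4 ≤ 150000 * 16 * (L * Real.log a ^ 4) := by
    have h1 : (1 + Real.log N) ^ 4 ≤ (2 * Real.log a) ^ 4 :=
      pow_le_pow_left₀ (by linarith) (by linarith) 4
    calc 150000 * L * (1 + Real.log N) ^ 4 ≤ 150000 * L * (2 * Real.log a) ^ 4 := by gcongr
      _ = _ := by ring
  set B : ℝ := 150000 * L * (1 + Real.log N) ^ 4 with hBdef
  have hg : ∀ (k : ℕ) (D : ℝ), ∫ u in a..(a + L), ‖gs N k c (hl u) D‖ ^ 2 ≤ B := fun k D =>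
    PkgV3.gs_int ha0 hL haL hN3 k c D hc
  have hle : a ≤ a + L := by linarith
  -- the majorant
  have hc1 : Continuous fun t : ℝ => ‖gs N (k + 2) c (hl t) D1‖ ^ 2 :=
    (gs_cont1 N (k + 2) c D1).norm.pow 2
  have hc2 : Continuous fun t : ℝ => ‖gs N (k + 2) c (hl t) D2‖ ^ 2 :=
    (gs_cont1 N (k + 2) c D2).norm.pow 2
  have hcJ : Continuous (Function.uncurry fun (t u : ℝ) =>
      ‖gs N (k + 1) c (hl t) (D2 + u + c)‖ ^ 2 + ‖gs N (k + 1) c (hl t) (D2 + u)‖ ^ 2) := by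
    have e1 := gs_cont2 N k c hc (D2 + c)
    have e2 := gs_cont2 N k c hc D2
    have e3 : (Function.uncurry fun (t u : ℝ) =>
      ‖gs N (k + 1) c (hl t) (D2 + u + c)‖ ^ 2 + ‖gs N (k + 1) c (hl t) (D2 + u)‖ ^ 2) =
      fun p : ℝ × ℝ => ‖gs N (k + 1) c (hl p.1) (p.2 + (D2 + c))‖ ^ 2 +
        ‖gs N (k + 1) c (hl p.1) (p.2 + D2)‖ ^ 2 := by
      funext p
      simp only [Function.uncurry]
      rw [show D2 + p.2 + c = p.2 + (D2 + c) by ring, show D2 + p.2 = p.2 + D2 by ring]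
    rw [e3]
    exact (e1.norm.pow 2).add (e2.norm.pow 2)
  have hcJ2 : Continuous fun t : ℝ => ∫ u in (-3:ℝ)..3,
      (‖gs N (k + 1) c (hl t) (D2 + u + c)‖ ^ 2 + ‖gs N (k + 1) c (hl t) (D2 + u)‖ ^ 2) :=
    intervalIntegral.continuous_parametric_intervalIntegral_of_continuous' hcJ (-3) 3
  have hJ : ∫ t in a..(a + L), ∫ u in (-3:ℝ)..3,
      (‖gs N (k + 1) c (hl t) (D2 + u + c)‖ ^ 2 + ‖gs N (k + 1) c (hl t) (D2 + u)‖ ^ 2) ≤
      12 * B := by
    refine dbl (J := fun (t u : ℝ) =>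
      ‖gs N (k + 1) c (hl t) (D2 + u + c)‖ ^ 2 + ‖gs N (k + 1) c (hl t) (D2 + u)‖ ^ 2) hcJ
      fun u => ?_
    have e : ∫ t in a..(a + L),
        (‖gs N (k + 1) c (hl t) (D2 + u + c)‖ ^ 2 + ‖gs N (k + 1) c (hl t) (D2 + u)‖ ^ 2) =
        (∫ t in a..(a + L), ‖gs N (k + 1) c (hl t) (D2 + u + c)‖ ^ 2) +
        ∫ t in a..(a + L), ‖gs N (k + 1) c (hl t) (D2 + u)‖ ^ 2 :=
      intervalIntegral.integral_add
        (((gs_cont1 N (k + 1) c (D2 + u + c)).norm.pow 2).intervalIntegrable _ _)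
        (((gs_cont1 N (k + 1) c (D2 + u)).norm.pow 2).intervalIntegrable _ _)
    rw [e]
    linarith [hg (k + 1) (D2 + u + c), hg (k + 1) (D2 + u)]
  have hmono : ∫ u in a..(a + L), ‖z u‖ ^ 2 ≤ ∫ t in a..(a + L), C *
      (1 + ‖gs N (k + 2) c (hl t) D1‖ ^ 2 + ‖gs N (k + 2) c (hl t) D2‖ ^ 2 +
      ∫ u in (-3:ℝ)..3, (‖gs N (k + 1) c (hl t) (D2 + u + c)‖ ^ 2 +
        ‖gs N (k + 1) c (hl t) (D2 + u)‖ ^ 2)) := by
    refine intervalIntegral.integral_mono_on hle ((cont_z.norm.pow 2).intervalIntegrable _ _)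
      ((continuous_const.mul (((continuous_const.add hc1).add hc2).add hcJ2)).intervalIntegrable _ _)
      fun t ht => ?_
    rw [← hl_z]
    exact hz t ht.1 (by linarith [ht.2])
  refine hmono.trans ?_
  have hsplit : ∀ {f g h : ℝ → ℝ}, Continuous f → Continuous g → Continuous h →
      ∫ t in a..(a + L), (1 + f t + g t + h t) =
        L + (∫ t in a..(a + L), f t) + (∫ t in a..(a + L), g t) + ∫ t in a..(a + L), h t := by
    intro f g h hf hg hh
    have e3 : ∫ t in a..(a + L), (1 + f t + g t + h t) =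
        (∫ t in a..(a + L), (1 + f t + g t)) + ∫ t in a..(a + L), h t :=
      intervalIntegral.integral_add (((continuous_const.add hf).add hg).intervalIntegrable _ _)
        (hh.intervalIntegrable _ _)
    have e2 : ∫ t in a..(a + L), (1 + f t + g t) =
        (∫ t in a..(a + L), (1 + f t)) + ∫ t in a..(a + L), g t :=
      intervalIntegral.integral_add ((continuous_const.add hf).intervalIntegrable _ _)
        (hg.intervalIntegrable _ _)
    have e1 : ∫ t in a..(a + L), (1 + f t) = (∫ _t in a..(a + L), (1:ℝ)) + ∫ t in a..(a + L), f t :=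
      intervalIntegral.integral_add (continuous_const.intervalIntegrable _ _)
        (hf.intervalIntegrable _ _)
    rw [e3, e2, e1, intervalIntegral.integral_const, smul_eq_mul, mul_one, add_sub_cancel_left]
  rw [intervalIntegral.integral_const_mul, hsplit hc1 hc2 hcJ2]
  have h1 := hg (k + 2) D1
  have h2 := hg (k + 2) D2
  have h3 : L ≤ L * Real.log a ^ 4 := by
    have : 1 ≤ Real.log a ^ 4 := one_le_pow₀ hlog1
    nlinarith
  have h4 : L + (∫ t in a..(a + L), ‖gs N (k + 2) c (hl t) D1‖ ^ 2) +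
        (∫ t in a..(a + L), ‖gs N (k + 2) c (hl t) D2‖ ^ 2) +
        (∫ t in a..(a + L), ∫ u in (-3:ℝ)..3, (‖gs N (k + 1) c (hl t) (D2 + u + c)‖ ^ 2 +
        ‖gs N (k + 1) c (hl t) (D2 + u)‖ ^ 2)) ≤
      L * Real.log a ^ 4 + 14 * (150000 * 16 * (L * Real.log a ^ 4)) := by linarith
  calc C * (L + (∫ t in a..(a + L), ‖gs N (k + 2) c (hl t) D1‖ ^ 2) +
        (∫ t in a..(a + L), ‖gs N (k + 2) c (hl t) D2‖ ^ 2) +
        ∫ t in a..(a + L), ∫ u in (-3:ℝ)..3, (‖gs N (k + 1) c (hl t) (D2 + u + c)‖ ^ 2 +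
        ‖gs N (k + 1) c (hl t) (D2 + u)‖ ^ 2)) ≤
      C * (L * Real.log a ^ 4 + 14 * (150000 * 16 * (L * Real.log a ^ 4))) :=
        mul_le_mul_of_nonneg_left h4 (by linarith)
    _ = _ := by ring

/-- the mean square over `[0, X]` -/
noncomputable def FF (X : ℝ) : ℝ := ∫ u in (0:ℝ)..X, ‖z u‖ ^ 2

lemma ii (a b : ℝ) : IntervalIntegrable (fun u => ‖z u‖ ^ 2) volume a b :=
  (cont_z.norm.pow 2).intervalIntegrable _ _

lemma FF_add (a b : ℝ) : FF b = FF a + ∫ u in a..b, ‖z u‖ ^ 2 :=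
  (intervalIntegral.integral_add_adjacent_intervals (ii 0 a) (ii a b)).symm

lemma FF_mono {a b : ℝ} (h : a ≤ b) : FF a ≤ FF b := by
  rw [FF_add a b]
  have : 0 ≤ ∫ u in a..b, ‖z u‖ ^ 2 :=
    intervalIntegral.integral_nonneg h fun u _ => by positivity
  linarith

lemma FF_nonneg {a : ℝ} (h : 0 ≤ a) : 0 ≤ FF a :=
  intervalIntegral.integral_nonneg h fun u _ => by positivity

lemma sub_mono {a b c : ℝ} (hbc : b ≤ c) : ∫ u in a..b, ‖z u‖ ^ 2 ≤ ∫ u in a..c, ‖z u‖ ^ 2 := by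
  have h1 := FF_add a b
  have h2 := FF_add a c
  have h3 := FF_mono hbc
  linarith

theorem global : ∃ K T₁ : ℝ, 0 < K ∧ 3 ≤ T₁ ∧
    (∀ a L : ℝ, T₁ ≤ a → 0 < L → a ≤ L ^ 3 → L ≤ a →
      ∫ u in a..(a + L), ‖z u‖ ^ 2 ≤ K * L * Real.log a ^ 4) ∧
    ∀ X : ℝ, T₁ ≤ X → FF X ≤ FF T₁ + K * X * Real.log X ^ 4 := by
  obtain ⟨K, T₁, hK, hT₁, hw⟩ := win
  have hT0 : 0 < T₁ := by linarith
  refine ⟨K, T₁, hK, hT₁, hw, ?_⟩
  have key : ∀ n : ℕ, ∀ X : ℝ, T₁ ≤ X → X ≤ 2 ^ n * T₁ →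
      FF X ≤ FF T₁ + K * X * Real.log X ^ 4 := by
    intro n
    induction n with
    | zero =>
      intro X h1 h2
      have h3 := FF_mono (show X ≤ T₁ by simpa using h2)
      have h4 : 0 ≤ K * X * Real.log X ^ 4 := by
        have : 0 ≤ Real.log X := Real.log_nonneg (by linarith)
        have : 0 ≤ X := by linarith
        positivity
      linarith
    | succ n ih =>
      intro X h1 h2
      have hX0 : 0 < X := by linarith
      have hlX : 0 ≤ Real.log X := Real.log_nonneg (by linarith)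
      rcases le_total X (2 * T₁) with h | h
      · -- one window
        have h3 := hw T₁ T₁ le_rfl hT0 (by nlinarith [mul_pos hT0 hT0]) le_rfl
        have h4 := sub_mono (a := T₁) (show X ≤ T₁ + T₁ by linarith)
        have h5 := FF_add T₁ X
        have h6 : K * T₁ * Real.log T₁ ^ 4 ≤ K * X * Real.log X ^ 4 := by
          have h7 : Real.log T₁ ≤ Real.log X := Real.log_le_log hT0 h1
          have h8 : 0 ≤ Real.log T₁ := Real.log_nonneg (by linarith)
          gcongr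
        linarith
      · have h3 := ih (X / 2) (by linarith) (by rw [pow_succ] at h2; linarith)
        have h4 := hw (X / 2) (X / 2) (by linarith) (by linarith) (by
          have h5 : 1 ≤ X / 2 := by linarith
          nlinarith [mul_pos (show 0 < X / 2 by linarith) (show 0 < X / 2 by linarith)]) le_rfl
        rw [add_halves] at h4
        have h5 := FF_add (X / 2) X
        have h7 : Real.log (X / 2) ≤ Real.log X := Real.log_le_log (by linarith) (by linarith)
        have h8 : 0 ≤ Real.log (X / 2) := Real.log_nonneg (by linarith)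
        have h6 : K * (X / 2) * Real.log (X / 2) ^ 4 ≤ K * (X / 2) * Real.log X ^ 4 := by gcongr
        linarith
  intro X hX
  obtain ⟨n, hn⟩ := pow_unbounded_of_one_lt (X / T₁) (by norm_num : (1:ℝ) < 2)
  refine key n X hX ?_
  rw [div_lt_iff₀ hT0] at hn
  exact hn.le

/-- **The mean square of zeta over short intervals, exponent `1/3`.** -/
theorem t_V3 : S_V3 := by
  intro ε hε
  obtain ⟨K, T₁, hK, hT₁, hw, hF⟩ := global
  have hT0 : 0 < T₁ := by linarith
  set E : ℝ := (4 / ε) ^ 4 with hE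
  have hE0 : 0 < E := by positivity
  have hlog : ∀ x : ℝ, 1 ≤ x → Real.log x ^ 4 ≤ E * x ^ ε := by
    intro x hx
    have h1 := Real.log_le_rpow_div (show 0 ≤ x by linarith) (show 0 < ε / 4 by positivity)
    have h2 : Real.log x ^ 4 ≤ (x ^ (ε / 4) / (ε / 4)) ^ 4 :=
      pow_le_pow_left₀ (Real.log_nonneg hx) h1 4
    refine h2.trans (le_of_eq ?_)
    rw [div_pow, ← Real.rpow_natCast (x ^ (ε / 4)) 4, ← Real.rpow_mul (by linarith), hE]
    have e : ε / 4 * ((4 : ℕ) : ℝ) = ε := by push_cast; ring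
    rw [e]
    field_simp
  set F0 : ℝ := FF T₁ with hF0
  have hF00 : 0 ≤ F0 := FF_nonneg hT0.le
  refine ⟨(K + F0 + K * (2 + T₁) * 16) * E + F0, T₁, by positivity, by linarith,
    fun T H t hT hH hHT ht htT => ?_⟩
  have hTp : 0 < T := by linarith
  have hT1 : 1 ≤ T := by linarith
  have hTε : 1 ≤ T ^ ε := Real.one_le_rpow hT1 hε.le
  set L : ℝ := max H (T ^ (1 / 3 : ℝ)) with hL
  have hHL : H ≤ L := le_max_left _ _
  have hL1 : 1 ≤ L := hH.trans hHL
  have hTL : T ≤ L ^ 3 := by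
    have h1 : T ^ (1 / 3 : ℝ) ≤ L := le_max_right _ _
    have h2 : (T ^ (1 / 3 : ℝ)) ^ 3 ≤ L ^ 3 := pow_le_pow_left₀ (by positivity) h1 3
    have h3 : (T ^ (1 / 3 : ℝ)) ^ 3 = T := by
      rw [← Real.rpow_natCast, ← Real.rpow_mul hTp.le]
      norm_num
    rwa [h3] at h2
  have hLT : L ≤ T := by
    refine max_le hHT ?_
    calc T ^ (1 / 3 : ℝ) ≤ T ^ (1 : ℝ) := Real.rpow_le_rpow_of_exponent_le hT1 (by norm_num)
      _ = T := Real.rpow_one T
  have hLs : L ≤ H + T ^ (1 / 3 : ℝ) := by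
    refine max_le ?_ ?_
    · have : 0 ≤ T ^ (1 / 3 : ℝ) := by positivity
      linarith
    · linarith
  have hchange : ∫ y in (0:ℝ)..H, ‖z (t + y)‖ ^ 2 = ∫ u in t..(t + H), ‖z u‖ ^ 2 := by
    rw [intervalIntegral.integral_comp_add_left (fun u => ‖z u‖ ^ 2) t, add_zero]
  have hsub := sub_mono (a := t) (show t + H ≤ t + L by linarith)
  have hgoal : ∫ u in t..(t + L), ‖z u‖ ^ 2 ≤
      ((K + F0 + K * (2 + T₁) * 16) * E + F0) * T ^ ε * L := by
    by_cases hcase : L ≤ t ∧ T₁ ≤ t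
    · have h1 := hw t L hcase.2 (by linarith) (htT.trans hTL) hcase.1
      have h2 : Real.log t ≤ Real.log T := Real.log_le_log (by linarith [hcase.2]) htT
      have h3 : 0 ≤ Real.log t := Real.log_nonneg (by linarith [hcase.2])
      calc ∫ u in t..(t + L), ‖z u‖ ^ 2 ≤ K * L * Real.log t ^ 4 := h1
        _ ≤ K * L * Real.log T ^ 4 := by gcongr
        _ ≤ K * L * (E * T ^ ε) := by
            have := hlog T hT1
            gcongr
        _ = (K * E) * T ^ ε * L := by ring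
        _ ≤ _ := by
            have h5 : K * E ≤ (K + F0 + K * (2 + T₁) * 16) * E + F0 := by
              have : 0 ≤ (F0 + K * (2 + T₁) * 16) * E + F0 := by positivity
              nlinarith
            gcongr
    · have ht2 : t ≤ L + T₁ := by
        by_contra hcon
        rw [not_le] at hcon
        exact hcase ⟨by linarith, by linarith⟩
      have h1 : ∫ u in t..(t + L), ‖z u‖ ^ 2 ≤ FF (2 * L + T₁) := by
        have h2 := FF_add t (t + L)
        have h3 := FF_nonneg ht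
        have h4 := FF_mono (show t + L ≤ 2 * L + T₁ by linarith)
        linarith
      have h2 := hF (2 * L + T₁) (by linarith)
      have h3 : 2 * L + T₁ ≤ (2 + T₁) * L := by nlinarith
      have h4 : 2 * L + T₁ ≤ T ^ 2 := by nlinarith
      have h5 : Real.log (2 * L + T₁) ≤ 2 * Real.log T := by
        calc Real.log (2 * L + T₁) ≤ Real.log (T ^ 2) := Real.log_le_log (by linarith) h4
          _ = 2 * Real.log T := by rw [Real.log_pow]; push_cast; ring
      have h6 : 0 ≤ Real.log (2 * L + T₁) := Real.log_nonneg (by linarith)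
      have h7 : Real.log (2 * L + T₁) ^ 4 ≤ 16 * Real.log T ^ 4 := by
        calc Real.log (2 * L + T₁) ^ 4 ≤ (2 * Real.log T) ^ 4 := pow_le_pow_left₀ h6 h5 4
          _ = 16 * Real.log T ^ 4 := by ring
      calc ∫ u in t..(t + L), ‖z u‖ ^ 2 ≤ F0 + K * (2 * L + T₁) * Real.log (2 * L + T₁) ^ 4 :=
            h1.trans h2
        _ ≤ F0 + K * ((2 + T₁) * L) * (16 * Real.log T ^ 4) := by gcongr
        _ ≤ F0 * (T ^ ε * L) + K * ((2 + T₁) * L) * (16 * (E * T ^ ε)) := by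
            have h8 := hlog T hT1
            have h9 : F0 ≤ F0 * (T ^ ε * L) := by
              have : 1 ≤ T ^ ε * L := one_le_mul_of_one_le_of_one_le hTε hL1
              nlinarith
            have h10 : K * ((2 + T₁) * L) * (16 * Real.log T ^ 4) ≤
                K * ((2 + T₁) * L) * (16 * (E * T ^ ε)) := by gcongr
            linarith
        _ = (K * (2 + T₁) * 16 * E + F0) * T ^ ε * L := by ring
        _ ≤ _ := by
            have h11 : K * (2 + T₁) * 16 * E + F0 ≤ (K + F0 + K * (2 + T₁) * 16) * E + F0 := by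
              have : 0 ≤ (K + F0) * E := by positivity
              nlinarith
            gcongr
  rw [hchange]
  calc ∫ u in t..(t + H), ‖z u‖ ^ 2 ≤ _ := hsub
    _ ≤ ((K + F0 + K * (2 + T₁) * 16) * E + F0) * T ^ ε * L := hgoal
    _ ≤ ((K + F0 + K * (2 + T₁) * 16) * E + F0) * T ^ ε * (H + T ^ (1 / 3 : ℝ)) := by gcongr

end Pool.Agent.H383.SB
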